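import Mathlib

set_option autoImplicit false

/-!
# The canonical nonclassical Hopf-Galois structure
-/

namespace Pool.Agent.X285.Hopf

section reg

variable (G : Type*) [Group G]

/-- the left regular representation `λ : G → Perm(G)`, `λ(g)(h) = g h` -/
def lam : G →* Equiv.Perm G where
  toFun g := Equiv.mulLeft g
  map_one' := by ext; simp
  map_mul' a b := by ext; simp [mul_assoc]

/-- the regular subgroup `N = λ(G)` of `Perm(G)` -/
def NN : Subgroup (Equiv.Perm G) := (lam G).range

/-- `N` as a group -/
def NG : Type _ := NN G

instance : Group (NG G) := (NN G).toGroup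

/-- `λ` as a homomorphism to `N` -/
def lamN : G →* NG G := (lam G).rangeRestrict

/-- the permutation given by an element of `N` -/
def NG.perm {G : Type*} [Group G] (n : NG G) : Equiv.Perm G := n.1

/-- conjugation by `λ(g)` on `N` -/
def conjN (g : G) : NG G →* NG G := (MulAut.conj (lamN G g)).toMonoidHom

end reg

section alg

variable (L G : Type*) [Field L] [Group G]

/-- the group algebra `L[N]` -/
abbrev GA : Type _ := MonoidAlgebra L (NG G)

variable [MulSemiringAction G L]

/-- the action of `g ∈ G` on the group algebra `L[N]`: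
`g · (∑ c_n n) = ∑ g(c_n) λ(g) n λ(g)⁻¹` -/
noncomputable def act (g : G) : GA L G →+* GA L G :=
  (MonoidAlgebra.mapDomainRingHom L (conjN G g)).comp
    (MonoidAlgebra.mapRingHom (NG G) (MulSemiringAction.toRingHom G L g))

/-- the elements of `L[N]` which are fixed by `G` -/
def fixedSet : Set (GA L G) := {a | ∀ g : G, act L G g a = a}

variable {L G} in
/-- the action of `L[N]` on `L`: `(∑ c_n n) · x = ∑ c_n (n⁻¹(1_G))(x)` -/
noncomputable def hact (a : GA L G) (x : L) : L :=
  (MonoidAlgebra.coeff a).sum fun n c => c * ((n.perm⁻¹ 1 : G) • x)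

variable (K : Type*) [Field K] [Algebra K L] [SMulCommClass G K L]

lemma fixed_mul {a b : GA L G} (ha : a ∈ fixedSet L G) (hb : b ∈ fixedSet L G) :
    a * b ∈ fixedSet L G := fun g => by rw [map_mul, ha g, hb g]

lemma fixed_add {a b : GA L G} (ha : a ∈ fixedSet L G) (hb : b ∈ fixedSet L G) :
    a + b ∈ fixedSet L G := fun g => by rw [map_add, ha g, hb g]

lemma fixed_algebraMap (r : K) : algebraMap K (GA L G) r ∈ fixedSet L G := by
  intro g
  show MonoidAlgebra.mapDomain (conjN G g) (MonoidAlgebra.mapRingHom (NG G)
    (MulSemiringAction.toRingHom G L g) (MonoidAlgebra.single (1 : NG G) (algebraMap K L r))) =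
    MonoidAlgebra.single (1 : NG G) (algebraMap K L r)
  have h2 : MulSemiringAction.toRingHom G L g (algebraMap K L r) = algebraMap K L r :=
    smul_algebraMap g r
  rw [MonoidAlgebra.mapRingHom_single, h2, MonoidAlgebra.mapDomain_single, map_one]

/-- `H_λ = L[N]^G` as a `K`-algebra -/
noncomputable def Hlam : Subalgebra K (GA L G) where
  carrier := fixedSet L G
  mul_mem' := fixed_mul L G
  add_mem' := fixed_add L G
  algebraMap_mem' := fixed_algebraMap L G K

end alg

section order

variable {R A : Type*} [CommRing R] [Ring A] [Algebra R A]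

/-- an `R`-order of the `K`-algebra `A`: a subring containing the image of `R` which is finitely
generated as an `R`-module and spans `A` over `K` -/
structure IsOrder (K : Type*) [Field K] [Algebra K A] (Λ : Subalgebra R A) : Prop where
  fg : (Subalgebra.toSubmodule Λ).FG
  span : Submodule.span K (Λ : Set A) = ⊤

/-- a maximal `R`-order: no `R`-order properly contains it -/
structure IsMaximalOrder (K : Type*) [Field K] [Algebra K A] (Λ : Subalgebra R A) : Prop where
  isOrder : IsOrder K Λ
  maximal : ∀ Λ' : Subalgebra R A, IsOrder K Λ' → Λ ≤ Λ' → Λ' = Λ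

end order

section assoc

variable (R K L G : Type*) [CommRing R] [Field K] [Field L] [Group G] [Algebra R K] [Algebra K L]
  [Algebra R L] [IsScalarTower R K L] [MulSemiringAction G L] [SMulCommClass G K L]

/-- the elements of `H_λ` which map the integral closure of `R` in `L` to itself -/
def assocSet : Set (Hlam L G K) := {h | ∀ x : L, IsIntegral R x → IsIntegral R (hact h.1 x)}

end assoc

end Pool.Agent.X285.Hopf
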