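import Mathlib
import Pool.Agent.X285.Hopf.Defs

set_option autoImplicit false

namespace Pool.Agent.X285.Hopf

open Module

section reg

variable (G : Type*) [Group G]

/-- the parametrisation of `N` by `G` -/
def eN : G ≃ NG G where
  toFun g := lamN G g
  invFun n := n.perm 1
  left_inv g := by
    show g * 1 = g
    rw [mul_one]
  right_inv n := by
    obtain ⟨n, g, rfl⟩ := n
    apply Subtype.ext
    show lam G (g * 1) = lam G g
    rw [mul_one]

lemma eN_mul (a b : G) : eN G (a * b) = eN G a * eN G b := map_mul (lamN G) a b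

lemma conjN_eN (s g : G) : conjN G s (eN G g) = eN G (s * g * s⁻¹) := by
  show lamN G s * lamN G g * (lamN G s)⁻¹ = lamN G (s * g * s⁻¹)
  rw [map_mul, map_mul, map_inv]

lemma eN_inv_one (g : G) : (eN G g).perm⁻¹ 1 = g⁻¹ := by
  show (Equiv.mulLeft g)⁻¹ 1 = g⁻¹
  simp

end reg

variable {L G : Type*} [Field L] [Group G] [Finite G]

/-- the coefficients of an element of `L[N]` -/
noncomputable def cf (a : GA L G) (g : G) : L := (MonoidAlgebra.coeff a) (eN _ g)

omit [Finite G] in
lemma cf_ext (a b : GA L G) (h : ∀ g, cf a g = cf b g) : a = b := by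
  apply MonoidAlgebra.ext
  ext n
  obtain ⟨g, rfl⟩ := (eN _).surjective n
  exact h g

/-- a single term -/
noncomputable def sg (g : G) (c : L) : GA L G := MonoidAlgebra.single (eN _ g) c

omit [Finite G] in
lemma cf_add (a b : GA L G) (g : G) : cf (a + b) g = cf a g + cf b g := rfl

omit [Finite G] in
lemma cf_zero (g : G) : cf (0 : GA L G) g = 0 := rfl

/-- the coefficient as an additive map -/
noncomputable def cfHom (g : G) : GA L G →+ L where
  toFun a := cf a g
  map_zero' := rfl
  map_add' _ _ := rfl

variable [Fintype G]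

/-- the element with given coefficients -/
noncomputable def ofCf (c : G → L) : GA L G := ∑ g, sg g (c g)

omit [Finite G] in
lemma cf_ofCf (c : G → L) (g : G) : cf (ofCf c) g = c g := by
  classical
  show cfHom g (∑ h, sg h (c h)) = c g
  rw [map_sum, Finset.sum_eq_single g]
  · show (MonoidAlgebra.coeff (MonoidAlgebra.single (eN _ g) (c g))) (eN _ g) = c g
    rw [MonoidAlgebra.coeff_single, Finsupp.single_eq_same]
  · intro b _ hb
    show (MonoidAlgebra.coeff (MonoidAlgebra.single (eN _ b) (c b))) (eN _ g) = 0
    rw [MonoidAlgebra.coeff_single, Finsupp.single_apply, if_neg]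
    intro h
    exact hb ((eN _).injective h)
  · intro h
    exact absurd (Finset.mem_univ g) h

omit [Finite G] in
lemma ofCf_cf (a : GA L G) : ofCf (cf a) = a := cf_ext _ _ fun g => cf_ofCf _ g

variable [MulSemiringAction G L]

omit [Finite G] in
lemma hact_eq (a : GA L G) (x : L) : hact a x = ∑ g : G, cf a g * (g⁻¹ • x) := by
  classical
  have : Finite (NG G) := Finite.of_equiv _ (eN G)
  have : Fintype (NG G) := Fintype.ofFinite _
  unfold hact
  rw [Finsupp.sum_fintype _ _ (fun _ => zero_mul _), ← Equiv.sum_comp (eN G)]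
  refine Finset.sum_congr rfl fun g _ => ?_
  rw [eN_inv_one]
  rfl

omit [Finite G] in
lemma hact_add (a : GA L G) (x y : L) : hact a (x + y) = hact a x + hact a y := by
  rw [hact_eq, hact_eq, hact_eq, ← Finset.sum_add_distrib]
  refine Finset.sum_congr rfl fun g _ => ?_
  rw [smul_add, mul_add]

omit [Finite G] in
lemma add_hact (a b : GA L G) (x : L) : hact (a + b) x = hact a x + hact b x := by
  rw [hact_eq, hact_eq, hact_eq, ← Finset.sum_add_distrib]
  refine Finset.sum_congr rfl fun g _ => ?_
  rw [cf_add, add_mul]

omit [Fintype G] in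
lemma single_hact (g : G) (c : L) (x : L) : hact (sg g c) x = c * (g⁻¹ • x) := by
  unfold hact
  show (MonoidAlgebra.coeff (MonoidAlgebra.single (eN _ g) c)).sum _ = _
  rw [MonoidAlgebra.coeff_single, Finsupp.sum_single_index (zero_mul _), eN_inv_one]

variable (K : Type*) [Field K] [Algebra K L]

omit [Finite G] [Fintype G] [MulSemiringAction G L] in
lemma cf_smul (r : K) (a : GA L G) (g : G) : cf (r • a) g = r • cf a g := rfl

omit [Finite G] in
lemma smul_hact (r : K) (a : GA L G) (x : L) : hact (r • a) x = r • hact a x := by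
  rw [hact_eq, hact_eq, Finset.smul_sum]
  refine Finset.sum_congr rfl fun g _ => ?_
  rw [cf_smul, smul_mul_assoc]

variable [SMulCommClass G K L]

omit [Finite G] in
lemma hact_smul (a : GA L G) (r : K) (x : L) : hact a (r • x) = r • hact a x := by
  rw [hact_eq, hact_eq, Finset.smul_sum]
  refine Finset.sum_congr rfl fun g _ => ?_
  rw [smul_comm, mul_smul_comm]

/-- the action as a linear endomorphism -/
noncomputable def hend (a : GA L G) : Module.End K L where
  toFun := hact a
  map_add' := hact_add a
  map_smul' := hact_smul K a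

/-- the linear map from `L[N]` to the endomorphisms -/
noncomputable def Th : GA L G →ₗ[K] Module.End K L where
  toFun := hend K
  map_add' a b := LinearMap.ext fun x => add_hact a b x
  map_smul' r a := LinearMap.ext fun x => smul_hact K r a x

omit [Finite G] in
lemma Th_apply (a : GA L G) (x : L) : Th K a x = hact a x := rfl

/-- the linear map given by a group element -/
def sm (g : G) : Module.End K L := (MulSemiringAction.toAlgHom K L g).toLinearMap

omit [Finite G] [Fintype G] in
lemma sm_apply (g : G) (x : L) : sm K g x = g • x := rfl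

variable [IsGaloisGroup G K L]

omit [Finite G] in
lemma Th_injective : Function.Injective (Th K : GA L G →ₗ[K] Module.End K L) := by
  classical
  rw [← LinearMap.ker_eq_bot, LinearMap.ker_eq_bot']
  intro a ha
  have hli := linearIndependent_toLinearMap K L L
  have hfaith : FaithfulSMul G L := IsGaloisGroup.faithful K
  have hinj : Function.Injective (fun g : G => (MulSemiringAction.toAlgHom K L (g⁻¹) : L →ₐ[K] L)) := by
    intro g h hgh
    have h1 : (g⁻¹ : G) = h⁻¹ := by
      apply FaithfulSMul.eq_of_smul_eq_smul (α := L)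
      intro x
      exact DFunLike.congr_fun hgh x
    exact inv_injective h1
  have hli2 := hli.comp _ hinj
  rw [Fintype.linearIndependent_iff] at hli2
  apply cf_ext
  intro g
  have h1 := hli2 (fun g => cf a g) (by
    ext x
    have h2 : Th K a x = 0 := by rw [ha]; rfl
    rw [Th_apply, hact_eq] at h2
    rw [LinearMap.sum_apply]
    simpa using h2) g
  rw [h1]
  rfl

lemma Th_bijective : Function.Bijective (Th K : GA L G →ₗ[K] Module.End K L) := by
  classical
  have hfd : FiniteDimensional K L := IsGaloisGroup.finiteDimensional G K L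
  -- compare dimensions
  set φ : (G → L) →ₗ[K] Module.End K L :=
    { toFun := fun c => Th K (ofCf c)
      map_add' := fun c d => by
        rw [← map_add]
        congr 1
        exact cf_ext _ _ fun g => by rw [cf_add, cf_ofCf, cf_ofCf, cf_ofCf]; rfl
      map_smul' := fun r c => by
        rw [RingHom.id_apply, ← map_smul]
        congr 1
        exact cf_ext _ _ fun g => by rw [cf_smul, cf_ofCf, cf_ofCf]; rfl } with hφ
  have hinj : Function.Injective φ := by
    intro c d hcd
    have h1 : ofCf c = ofCf d := Th_injective K hcd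
    funext g
    rw [← cf_ofCf c g, h1, cf_ofCf]
  have hsurj : Function.Surjective φ := by
    have hdim : finrank K (G → L) = finrank K (Module.End K L) := by
      rw [Module.finrank_pi_fintype, Finset.sum_const, Finset.card_univ, Module.finrank_linearMap,
        ← Nat.card_eq_fintype_card, IsGaloisGroup.card_eq_finrank G K L, smul_eq_mul]
    exact (LinearMap.injective_iff_surjective_of_finrank_eq_finrank hdim).mp hinj
  refine ⟨Th_injective K, fun f => ?_⟩
  obtain ⟨c, hc⟩ := hsurj f
  exact ⟨ofCf c, hc⟩

omit [Finite G] [Fintype G] in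
lemma cf_act (s : G) (a : GA L G) (g : G) : cf (act L G s a) (s * g * s⁻¹) = s • (cf a g) := by
  classical
  unfold cf
  rw [← conjN_eN]
  have hinj : Function.Injective (conjN G s) := (MulAut.conj (lamN G s)).injective
  show (MonoidAlgebra.coeff (MonoidAlgebra.mapDomain (conjN G s)
    (MonoidAlgebra.mapRingHom (NG G) (MulSemiringAction.toRingHom G L s) a))) _ = _
  have h1 : ∀ b : MonoidAlgebra L (NG G),
      (MonoidAlgebra.mapDomain (conjN G s) b).coeff (conjN G s (eN G g)) =
      b.coeff (eN G g) := by
    intro b
    exact Finsupp.mapDomain_apply hinj b.coeff _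
  rw [h1]
  rfl

omit [Finite G] in
/-- the action of the Galois group on `L[N]` corresponds to conjugation of endomorphisms -/
lemma hact_act (s : G) (a : GA L G) (x : L) : hact (act L G s a) (s • x) = s • (hact a x) := by
  classical
  rw [hact_eq, hact_eq, Finset.smul_sum]
  rw [← Equiv.sum_comp (MulAut.conj s).toEquiv]
  refine Finset.sum_congr rfl fun g _ => ?_
  have e1 : (MulAut.conj s).toEquiv g = s * g * s⁻¹ := rfl
  rw [e1, cf_act, smul_mul']
  congr 1
  rw [smul_smul, smul_smul]
  congr 1
  group

omit [Finite G] in
lemma mem_Hlam (a : GA L G) : a ∈ Hlam L G K ↔ ∀ (s : G) (x : L), hact a (s • x) = s • (hact a x) := by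
  constructor
  · intro h s x
    have h1 := hact_act s a x
    rwa [h s] at h1
  · intro h s
    apply Th_injective K
    apply LinearMap.ext
    intro x
    rw [Th_apply, Th_apply]
    obtain ⟨y, rfl⟩ := MulAction.surjective s x
    rw [hact_act, h]

omit [Finite G] [Fintype G] [IsGaloisGroup G K L] in
lemma cf_of_mem (a : GA L G) (ha : a ∈ Hlam L G K) (s g : G) :
    s • (cf a g) = cf a (s * g * s⁻¹) := by
  rw [← cf_act, ha s]

/-- the action is multiplicative if the second factor is in `H_λ` -/
lemma mul_hact (a b : GA L G) (hb : b ∈ Hlam L G K) (x : L) :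
    hact (a * b) x = hact a (hact b x) := by
  classical
  have hsum : ∀ (S : Finset G) (u : G → GA L G) (y : L),
      hact (∑ k ∈ S, u k) y = ∑ k ∈ S, hact (u k) y := by
    intro S u y
    have h3 : Th K (∑ k ∈ S, u k) y = (∑ k ∈ S, Th K (u k)) y := by rw [map_sum]
    rw [LinearMap.sum_apply] at h3
    exact h3
  have hsingle : ∀ (g : G) (c : L), hact (sg g c * b) x = hact (sg g c) (hact b x) := by
    intro g c
    rw [single_hact]
    have h1 : sg g c * b = ∑ k : G, sg (g * k) (c * cf b k) := by
      conv_lhs => rw [← ofCf_cf b]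
      unfold ofCf
      rw [Finset.mul_sum]
      refine Finset.sum_congr rfl fun k _ => ?_
      show MonoidAlgebra.single (eN _ g) c * MonoidAlgebra.single (eN _ k) (cf b k) =
        MonoidAlgebra.single (eN _ (g * k)) (c * cf b k)
      rw [MonoidAlgebra.single_mul_single, eN_mul]
    rw [h1, hsum, hact_eq, Finset.smul_sum, Finset.mul_sum]
    rw [← Equiv.sum_comp (MulAut.conj g).toEquiv
      (fun k => c * (g⁻¹ • (cf b k * (k⁻¹ • x))))]
    refine Finset.sum_congr rfl fun k _ => ?_
    have e1 : (MulAut.conj g).toEquiv k = g * k * g⁻¹ := rfl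
    rw [single_hact, e1, smul_mul', ← cf_of_mem K b hb g k, mul_assoc]
    congr 1
    rw [inv_smul_smul]
    congr 1
    rw [smul_smul]
    congr 1
    group
  rw [← ofCf_cf a]
  unfold ofCf
  rw [Finset.sum_mul, hsum, hsum]
  exact Finset.sum_congr rfl fun g _ => hsingle g _

end Pool.Agent.X285.Hopf
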