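import Mathlib

set_option autoImplicit false

namespace Pool.Agent.X285.Hopf

open Module Polynomial TensorProduct

/-- the trace of an endomorphism annihilated by a monic polynomial with coefficients in `R` is
integral over `R` -/
theorem isIntegral_trace_of_aeval {R K V : Type*} [CommRing R] [Field K] [Algebra R K]
    [AddCommGroup V] [Module K V] [FiniteDimensional K V] (f : Module.End K V) (P : R[X])
    (hP : P.Monic) (hf : aeval f (P.map (algebraMap R K)) = 0) :
    IsIntegral R (LinearMap.trace K V f) := by
  classical
  set Kb := AlgebraicClosure K with hKb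
  set f' : Module.End Kb (Kb ⊗[K] V) := Module.End.baseChangeHom K Kb V f with hf'
  have htr : LinearMap.trace Kb (Kb ⊗[K] V) f' = algebraMap K Kb (LinearMap.trace K V f) :=
    LinearMap.trace_baseChange f Kb
  have hann : aeval f' (P.map (algebraMap R Kb)) = 0 := by
    have h1 : aeval f' (P.map (algebraMap R K)) = 0 := by
      rw [hf', Polynomial.aeval_algHom_apply, hf, map_zero]
    have h2 : P.map (algebraMap R Kb) = (P.map (algebraMap R K)).map (algebraMap K Kb) := by
      rw [Polynomial.map_map, ← IsScalarTower.algebraMap_eq]
    rw [h2, Polynomial.aeval_map_algebraMap, h1]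
  have hroots : ∀ μ ∈ f'.charpoly.roots, IsIntegral R μ := by
    intro μ hμ
    have h1 : f'.HasEigenvalue μ :=
      (Module.End.hasEigenvalue_iff_isRoot_charpoly f' μ).mpr (isRoot_of_mem_roots hμ)
    obtain ⟨v, hv⟩ := h1.exists_hasEigenvector
    have h2 := Module.End.aeval_apply_of_hasEigenvector (p := P.map (algebraMap R Kb)) hv
    rw [hann, LinearMap.zero_apply] at h2
    have h3 : (P.map (algebraMap R Kb)).eval μ = 0 :=
      (smul_eq_zero.mp h2.symm).resolve_right hv.2
    exact ⟨P, hP, by rwa [eval_map] at h3⟩
  have hint : IsIntegral R (algebraMap K Kb (LinearMap.trace K V f)) := by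
    rw [← htr, Module.End.trace_eq_sum_roots_charpoly_of_splits (IsAlgClosed.splits _)]
    exact IsIntegral.multiset_sum hroots
  exact (isIntegral_algebraMap_iff (algebraMap K Kb).injective).mp hint

end Pool.Agent.X285.Hopf
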