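import Mathlib
import Pool.Agent.X285.Hopf.Act
import Pool.Agent.X285.Hopf.Tr

set_option autoImplicit false

namespace Pool.Agent.X285.Hopf

open Module Polynomial

variable (R K L G : Type*) [CommRing R] [Field K] [Field L] [Group G] [Algebra R K] [Algebra K L]
  [Algebra R L] [IsScalarTower R K L] [MulSemiringAction G L] [SMulCommClass G K L]
  [IsGaloisGroup G K L] [Finite G]

omit [SMulCommClass G K L] [IsGaloisGroup G K L] in
lemma one_hact (x : L) : hact (1 : GA L G) x = x := by
  have h1 : (1 : GA L G) = sg 1 1 := by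
    unfold sg
    rw [MonoidAlgebra.one_def]
    congr 1
    exact (map_one (lamN G)).symm
  rw [h1, single_hact]
  simp

lemma mul_hact' (a b : GA L G) (hb : b ∈ Hlam L G K) (x : L) :
    hact (a * b) x = hact a (hact b x) := by
  have : Fintype G := Fintype.ofFinite G
  exact mul_hact K a b hb x

omit [SMulCommClass G K L] [IsGaloisGroup G K L] in
lemma add_hact' (a b : GA L G) (x : L) : hact (a + b) x = hact a x + hact b x := by
  have : Fintype G := Fintype.ofFinite G
  exact add_hact a b x

omit [SMulCommClass G K L] [IsGaloisGroup G K L] in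
lemma hact_add' (a : GA L G) (x y : L) : hact a (x + y) = hact a x + hact a y := by
  have : Fintype G := Fintype.ofFinite G
  exact hact_add a x y

omit [SMulCommClass G K L] [IsGaloisGroup G K L] in
lemma smul_hact' (r : K) (a : GA L G) (x : L) : hact (r • a) x = r • hact a x := by
  have : Fintype G := Fintype.ofFinite G
  exact smul_hact K r a x

omit [IsGaloisGroup G K L] in
lemma hact_smul' (r : K) (a : GA L G) (x : L) : hact a (r • x) = r • hact a x := by
  have : Fintype G := Fintype.ofFinite G
  exact hact_smul K a r x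

/-- the linear map from `L[N]` to the endomorphisms -/
noncomputable def Th' : GA L G →ₗ[K] Module.End K L :=
  haveI : Fintype G := Fintype.ofFinite G
  Th K

omit [IsGaloisGroup G K L] in
lemma Th'_apply (a : GA L G) (x : L) : Th' K L G a x = hact a x := rfl

lemma Th'_bijective : Function.Bijective (Th' K L G) := by
  letI : Fintype G := Fintype.ofFinite G
  exact Th_bijective K

lemma mem_Hlam' (a : GA L G) :
    a ∈ Hlam L G K ↔ ∀ (s : G) (x : L), hact a (s • x) = s • (hact a x) := by
  letI : Fintype G := Fintype.ofFinite G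
  exact mem_Hlam K a

/-- the action as an algebra homomorphism -/
noncomputable def Theta : Hlam L G K →ₐ[K] Module.End K L :=
  AlgHom.ofLinearMap (Th' K L G ∘ₗ (Subalgebra.toSubmodule (Hlam L G K)).subtype)
    (LinearMap.ext fun x => one_hact L G x)
    (fun a b => LinearMap.ext fun x => mul_hact' K L G a.1 b.1 b.2 x)

lemma Theta_apply (a : Hlam L G K) (x : L) : Theta K L G a x = hact a.1 x := rfl

omit [IsGaloisGroup G K L] in
lemma Rsmul_hact (r : R) (a : Hlam L G K) (x : L) : hact (r • a).1 x = r • hact a.1 x := by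
  have h1 : (r • a) = (algebraMap R K r) • a := by
    rw [algebraMap_smul]
  rw [h1]
  have h2 : hact ((algebraMap R K r) • a).1 x = (algebraMap R K r) • hact a.1 x :=
    smul_hact' K L G _ a.1 x
  rw [h2, algebraMap_smul]

lemma assoc_mul {a b : Hlam L G K} (ha : a ∈ assocSet R K L G) (hb : b ∈ assocSet R K L G) :
    a * b ∈ assocSet R K L G := by
  intro x hx
  have h1 : hact (a * b).1 x = hact a.1 (hact b.1 x) := mul_hact' K L G a.1 b.1 b.2 x
  rw [h1]
  exact ha _ (hb x hx)

omit [IsGaloisGroup G K L] in
lemma assoc_add {a b : Hlam L G K} (ha : a ∈ assocSet R K L G) (hb : b ∈ assocSet R K L G) :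
    a + b ∈ assocSet R K L G := by
  intro x hx
  have h1 : hact (a + b).1 x = hact a.1 x + hact b.1 x := add_hact' L G a.1 b.1 x
  rw [h1]
  exact (ha x hx).add (hb x hx)

omit [IsGaloisGroup G K L] in
lemma assoc_algebraMap (r : R) : algebraMap R (Hlam L G K) r ∈ assocSet R K L G := by
  intro x hx
  rw [Algebra.algebraMap_eq_smul_one, Rsmul_hact]
  have h1 : hact (1 : Hlam L G K).1 x = x := one_hact L G x
  rw [h1]
  exact hx.smul r

/-- the associated order of the integral closure of `R` in `L` in the Hopf algebra `H_λ`: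
`{h ∈ H_λ : h · 𝔒_L ⊆ 𝔒_L}` -/
noncomputable def assocOrder : Subalgebra R (Hlam L G K) where
  carrier := assocSet R K L G
  mul_mem' := assoc_mul R K L G
  add_mem' := assoc_add R K L G
  algebraMap_mem' := assoc_algebraMap R K L G

variable [IsDedekindDomain R] [IsFractionRing R K]

omit [IsDedekindDomain R] [IsFractionRing R K] in
lemma trace_mem (Λ : Subalgebra R (Hlam L G K)) (hΛ : (Subalgebra.toSubmodule Λ).FG)
    (a : Hlam L G K) (ha : a ∈ Λ) : IsIntegral R (LinearMap.trace K L (Theta K L G a)) := by
  have hfd : FiniteDimensional K L := IsGaloisGroup.finiteDimensional G K L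
  obtain ⟨P, hP, hPa⟩ := IsIntegral.of_mem_of_fg Λ hΛ a ha
  apply isIntegral_trace_of_aeval _ P hP
  rw [Polynomial.aeval_algHom_apply, Polynomial.aeval_map_algebraMap]
  rw [← Polynomial.aeval_def] at hPa
  rw [hPa, map_zero]

omit [Group G] [MulSemiringAction G L] [SMulCommClass G K L] [IsGaloisGroup G K L] [Finite G] in
/-- if all traces `Tr(z y)`, `z` in the codifferent, are integral, then `y` is integral -/
lemma isIntegral_of_trace [FiniteDimensional K L] [Algebra.IsSeparable K L] (y : L)
    (hy : ∀ z : L, (∀ b : L, IsIntegral R b → IsIntegral R (Algebra.trace K L (z * b))) →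
      IsIntegral R (Algebra.trace K L (z * y))) : IsIntegral R y := by
  have hB : IsDedekindDomain (integralClosure R L) := integralClosure.isDedekindDomain R K L
  have hF : IsFractionRing (integralClosure R L) L :=
    integralClosure.isFractionRing_of_finite_extension K L
  have h0 : (1 : FractionalIdeal (nonZeroDivisors (integralClosure R L)) L) ≠ 0 := one_ne_zero
  have h1 : y ∈ FractionalIdeal.dual R K (FractionalIdeal.dual R K
      (1 : FractionalIdeal (nonZeroDivisors (integralClosure R L)) L)) := by
    rw [FractionalIdeal.mem_dual (FractionalIdeal.dual_ne_zero R K h0)]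
    intro z hz
    rw [FractionalIdeal.mem_dual h0] at hz
    have h2 := hy z (fun b hb => by
      obtain ⟨r, hr⟩ := hz b ((FractionalIdeal.mem_one_iff _).mpr ⟨⟨b, hb⟩, rfl⟩)
      rw [Algebra.traceForm_apply] at hr
      rw [← hr]
      exact isIntegral_algebraMap)
    obtain ⟨r, hr⟩ := IsIntegrallyClosed.isIntegral_iff.mp h2
    refine ⟨r, ?_⟩
    rw [hr, Algebra.traceForm_apply, mul_comm]
  rw [FractionalIdeal.dual_dual, FractionalIdeal.mem_one_iff] at h1
  obtain ⟨b, rfl⟩ := h1
  exact b.2

omit [Finite G] [IsDedekindDomain R] [IsFractionRing R K] [IsGaloisGroup G K L] in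
include K in
lemma galois_isIntegral (s : G) (x : L) (hx : IsIntegral R x) : IsIntegral R (s • x) :=
  hx.map ((MulSemiringAction.toAlgHom K L s).restrictScalars R)

/-- every order containing the associated order equals it, if the degree is invertible -/
theorem assocOrder_maximal (hG : IsUnit ((finrank K L : ℕ) : R)) (Λ : Subalgebra R (Hlam L G K))
    (hΛ : (Subalgebra.toSubmodule Λ).FG) (hle : assocOrder R K L G ≤ Λ) :
    Λ = assocOrder R K L G := by
  classical
  letI : Fintype G := Fintype.ofFinite G
  have hfd : FiniteDimensional K L := IsGaloisGroup.finiteDimensional G K L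
  have hgal : IsGalois K L := IsGaloisGroup.isGalois G K L
  refine le_antisymm (fun h hh x hx => ?_) hle
  apply isIntegral_of_trace R K L
  intro z hz
  -- the rank one operator
  set f : Module.End K L :=
    ((Algebra.traceForm K L z : L →ₗ[K] K)).smulRight x with hf
  obtain ⟨u, hu⟩ := hG
  -- the averaged operator
  set c : K := algebraMap R K ((u⁻¹ : Rˣ) : R) with hc
  have hcG : c * (finrank K L : ℕ) = 1 := by
    have : (((u⁻¹ : Rˣ) : R)) * ((finrank K L : ℕ) : R) = 1 := by rw [← hu]; exact u.inv_mul
    have h2 := congrArg (algebraMap R K) this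
    rw [map_mul, map_natCast, map_one] at h2
    exact h2
  set Pf : Module.End K L := c • ∑ s : G, (sm K s * f * sm K s⁻¹) with hPf
  have hPf_apply : ∀ w, Pf w = c • ∑ s : G, s • (f (s⁻¹ • w)) := by
    intro w
    rw [hPf, LinearMap.smul_apply, LinearMap.sum_apply]
    rfl
  have hcomm : ∀ (t : G) (w : L), Pf (t • w) = t • (Pf w) := by
    intro t w
    have hsc : ∀ y : L, t • (c • y) = c • (t • y) := fun y => smul_comm t c y
    have hs : ∑ s : G, s • (f (s⁻¹ • (t • w))) = ∑ s : G, t • (s • (f (s⁻¹ • w))) := by
      rw [← Equiv.sum_comp (Equiv.mulLeft t) (fun s : G => s • (f (s⁻¹ • (t • w))))]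
      refine Finset.sum_congr rfl fun s _ => ?_
      show (t * s) • (f ((t * s)⁻¹ • (t • w))) = t • (s • (f (s⁻¹ • w)))
      have h7 : (t * s)⁻¹ • (t • w) = s⁻¹ • w := by
        rw [smul_smul]
        congr 1
        group
      rw [h7, smul_smul]
    rw [hPf_apply, hPf_apply, hsc, hs, Finset.smul_sum (r := t)]
  obtain ⟨a, ha⟩ := (Th'_bijective K L G).2 Pf
  have haH : a ∈ Hlam L G K := by
    rw [mem_Hlam']
    intro s w
    rw [← Th'_apply K, ← Th'_apply K, ha]
    exact hcomm s w
  have haA : (⟨a, haH⟩ : Hlam L G K) ∈ assocOrder R K L G := by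
    intro w hw
    rw [← Th'_apply K, ha, hPf_apply]
    have h1 : ∀ s : G, IsIntegral R (s • (f (s⁻¹ • w))) := by
      intro s
      apply galois_isIntegral R K L G
      rw [hf, LinearMap.smulRight_apply]
      rw [Algebra.traceForm_apply]
      have h2 := hz _ (galois_isIntegral R K L G (s⁻¹) w hw)
      rw [Algebra.smul_def]
      exact (h2.algebraMap).mul hx
    have h2 : IsIntegral R (∑ s : G, s • (f (s⁻¹ • w))) :=
      IsIntegral.sum _ fun s _ => h1 s
    rw [hc, algebraMap_smul]
    exact h2.smul _
  -- the trace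
  have htr := trace_mem R K L G Λ hΛ (h * ⟨a, haH⟩) (Λ.mul_mem hh (hle haA))
  rw [map_mul] at htr
  have e1 : Theta K L G ⟨a, haH⟩ = Pf := ha
  have e2 : LinearMap.trace K L (Theta K L G h * Pf) = LinearMap.trace K L (Theta K L G h * f) := by
    rw [hPf, mul_smul_comm, Finset.mul_sum, map_smul, map_sum]
    have h3 : ∀ s : G, LinearMap.trace K L (Theta K L G h * (sm K s * f * sm K s⁻¹)) =
        LinearMap.trace K L (Theta K L G h * f) := by
      intro s
      have h4 : Theta K L G h * sm K s = sm K s * Theta K L G h := by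
        apply LinearMap.ext
        intro w
        exact (mem_Hlam' K L G h.1).mp h.2 s w
      have h5 : (sm K s⁻¹ : Module.End K L) * sm K s = 1 := by
        apply LinearMap.ext
        intro w
        show s⁻¹ • (s • w) = w
        rw [inv_smul_smul]
      rw [← mul_assoc, ← mul_assoc, h4, mul_assoc (_ : Module.End K L), mul_assoc (_ : Module.End K L),
        LinearMap.trace_mul_comm, mul_assoc, mul_assoc, h5, mul_one]
    rw [Finset.sum_congr rfl fun s _ => h3 s, Finset.sum_const, Finset.card_univ,
      ← Nat.card_eq_fintype_card, IsGaloisGroup.card_eq_finrank G K L, nsmul_eq_mul, smul_eq_mul,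
      ← mul_assoc, hcG, one_mul]
  have e3 : LinearMap.trace K L (Theta K L G h * f) = Algebra.trace K L (z * hact h.1 x) := by
    have h6 : Theta K L G h * f =
        ((Algebra.traceForm K L z : L →ₗ[K] K)).smulRight (hact h.1 x) := by
      apply LinearMap.ext
      intro w
      rw [Module.End.mul_apply, hf, LinearMap.smulRight_apply, LinearMap.smulRight_apply, map_smul]
      rfl
    rw [h6, LinearMap.trace_smulRight, Algebra.traceForm_apply]
  rw [e1, e2, e3] at htr
  exact htr

end Pool.Agent.X285.Hopf
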