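import Mathlib
import Pool.Agent.X285.Hopf.Max

set_option autoImplicit false

namespace Pool.Agent.X285.Hopf

open Module Polynomial

variable (R K L G : Type*) [CommRing R] [Field K] [Field L] [Group G] [Algebra R K] [Algebra K L]
  [Algebra R L] [IsScalarTower R K L] [MulSemiringAction G L] [SMulCommClass G K L]
  [IsGaloisGroup G K L] [Finite G] [IsDedekindDomain R] [IsFractionRing R K]

/-- the associated order is finitely generated -/
theorem assocOrder_fg : (Subalgebra.toSubmodule (assocOrder R K L G)).FG := by
  classical
  have hfd : FiniteDimensional K L := IsGaloisGroup.finiteDimensional G K L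
  have hgal : IsGalois K L := IsGaloisGroup.isGalois G K L
  obtain ⟨s, b, hb⟩ := FiniteDimensional.exists_is_basis_integral R K L
  have hnoe : IsNoetherian R (integralClosure R L) := IsIntegralClosure.isNoetherian R K L _
  set φ : Subalgebra.toSubmodule (assocOrder R K L G) →ₗ[R] (s → integralClosure R L) :=
    { toFun := fun a i => ⟨hact a.1.1 (b i), a.2 (b i) (hb i)⟩
      map_add' := fun a a' => by
        funext i
        apply Subtype.ext
        exact add_hact' L G a.1.1 a'.1.1 (b i)
      map_smul' := fun r a => by
        funext i
        apply Subtype.ext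
        exact Rsmul_hact R K L G r a.1 (b i) } with hφ
  have hinj : Function.Injective φ := by
    intro a a' haa
    have h1 : Th' K L G a.1.1 = Th' K L G a'.1.1 := by
      apply b.ext
      intro i
      exact congrArg Subtype.val (congrFun haa i)
    exact Subtype.ext (Subtype.ext ((Th'_bijective K L G).1 h1))
  have hN : IsNoetherian R (Subalgebra.toSubmodule (assocOrder R K L G)) :=
    isNoetherian_of_injective φ hinj
  have hF : Module.Finite R (Subalgebra.toSubmodule (assocOrder R K L G)) :=
    Module.IsNoetherian.finite R _
  exact Module.Finite.iff_fg.mp hF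

/-- the associated order spans `H_λ` over `K` -/
theorem assocOrder_span : Submodule.span K (assocOrder R K L G : Set (Hlam L G K)) = ⊤ := by
  classical
  have hfd : FiniteDimensional K L := IsGaloisGroup.finiteDimensional G K L
  have hgal : IsGalois K L := IsGaloisGroup.isGalois G K L
  rw [eq_top_iff]
  intro h _
  have hfin : Module.Finite R (integralClosure R L) := IsIntegralClosure.finite R K L _
  obtain ⟨S, hS⟩ := hfin.fg_top
  obtain ⟨d, hd, hd'⟩ := exists_integral_multiples R K (L := L)
    (Finset.image (fun b : integralClosure R L => hact h.1 (b : L)) S)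
  have hmem : d • h ∈ assocOrder R K L G := by
    intro x hx
    have h1 : (⟨x, hx⟩ : integralClosure R L) ∈ Submodule.span R (S : Set (integralClosure R L)) := by
      rw [hS]; trivial
    rw [Rsmul_hact]
    have h2 : ∀ y : integralClosure R L, y ∈ Submodule.span R (S : Set (integralClosure R L)) →
        IsIntegral R (d • hact h.1 (y : L)) := by
      intro y hy
      induction hy using Submodule.span_induction with
      | mem y hy => exact hd' _ (Finset.mem_image_of_mem _ hy)
      | zero =>
        have : hact h.1 (((0 : integralClosure R L)) : L) = 0 := by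
          have := map_zero (Th' K L G h.1)
          exact this
        rw [this, smul_zero]
        exact isIntegral_zero
      | add y y' _ _ hy hy' =>
        have h3 : hact h.1 (((y + y' : integralClosure R L)) : L) =
            hact h.1 (y : L) + hact h.1 (y' : L) := hact_add' L G h.1 _ _
        rw [h3, smul_add]
        exact hy.add hy'
      | smul r y _ hy =>
        have h3 : hact h.1 (((r • y : integralClosure R L)) : L) = r • hact h.1 (y : L) := by
          have h4 : (((r • y : integralClosure R L)) : L) = (algebraMap R K r) • (y : L) := by
            rw [algebraMap_smul]; rfl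
          rw [h4, hact_smul' K, algebraMap_smul]
        rw [h3, smul_comm]
        exact hy.smul r
    exact h2 _ h1
  have hd0 : algebraMap R K d ≠ 0 := by
    intro h0
    exact hd ((IsFractionRing.injective R K) (by rw [h0, map_zero]))
  have h3 : h = (algebraMap R K d)⁻¹ • (d • h) := by
    have h4 : (d • h) = (algebraMap R K d) • h := by rw [algebraMap_smul]
    rw [h4, smul_smul, inv_mul_cancel₀ hd0, one_smul]
  rw [h3]
  exact Submodule.smul_mem _ _ (Submodule.subset_span hmem)

theorem assocOrder_isMaximalOrder (hG : IsUnit ((finrank K L : ℕ) : R)) :
    IsMaximalOrder K (assocOrder R K L G) :=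
  ⟨⟨assocOrder_fg R K L G, assocOrder_span R K L G⟩,
    fun Λ hΛ hle => assocOrder_maximal R K L G hG Λ hΛ.fg hle⟩

end Pool.Agent.X285.Hopf
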